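import Mathlib

/-!
# Strong external difference families with `λ = 1` have `m = 2` or `k = 1`, in every group

Let `A_1, …, A_m` be an `(n,m,k,1)`-SEDF in a finite group `G`, `B_i = ⋃_{j ≠ i} A_j`. In the group
ring `A_i B_i^{(-1)} = G - e` is invertible and central, so also `B_i^{(-1)} A_i = G - e`. Hence the
left differences `y⁻¹ x` (`x ∈ A_i`, `y ∈ B_i`) are different, too. With both facts, the argument
for abelian groups works: let `a ≠ a'` in `A_1`. For `i = 2, 3` write `a a'⁻¹ = x_i y_i⁻¹` with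
`x_i ∈ A_i`, `y_i ∈ B_i`. Then `x_i⁻¹ a = y_i⁻¹ a'` shows that `y_i ∈ A_1`, and
`y_2 x_2⁻¹ = y_3 x_3⁻¹` is a contradiction.
-/

set_option autoImplicit false

namespace Pool.Agent.Results.MP_2fa8e1_co.NoneExists

open Finset

/-- The number of pairs `(x, y)` with `x ∈ A i`, `y ∈ A j` for some `j ≠ i` and `x y⁻¹ = g`: the
multiplicity of `g` in the multiset union of the `D(A_i, A_j)`, `j ≠ i` (the sets being disjoint or
not, the union is over `j`). -/
def mult {G : Type*} [Group G] [DecidableEq G] {m : ℕ} (A : Fin m → Finset G) (i : Fin m) (g : G) :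
    ℕ :=
  ∑ j ∈ univ.erase i, ((A i ×ˢ A j).filter fun p => p.1 * p.2⁻¹ = g).card

/-- `(A_1, …, A_m)` is an `(n,m,k,lam)`-SEDF in `G`. -/
def IsSEDF {G : Type*} [Group G] [Fintype G] [DecidableEq G] (n m k lam : ℕ)
    (A : Fin m → Finset G) : Prop :=
  Fintype.card G = n ∧ (∀ i, (A i).card = k) ∧ (∀ i j, i ≠ j → Disjoint (A i) (A j)) ∧
    ∀ i, (∀ g : G, g ≠ 1 → mult A i g = lam) ∧ mult A i 1 = 0

section
variable {G : Type*} [Group G] [Fintype G] [DecidableEq G]

/-- If `X Y⁻¹` covers every non-identity element exactly once, then so does `Y⁻¹ X`. -/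
theorem flip (X Y : Finset G) (hn : 1 < Fintype.card G)
    (h1 : ∀ g : G, ((X ×ˢ Y).filter fun p => p.1 * p.2⁻¹ = g).card = if g = 1 then 0 else 1) :
    ∀ g : G, ((X ×ˢ Y).filter fun p => p.2⁻¹ * p.1 = g).card = if g = 1 then 0 else 1 := by
  classical
  let P : Matrix G G ℚ := Matrix.of fun g h => if g * h⁻¹ ∈ X then 1 else 0
  let Q : Matrix G G ℚ := Matrix.of fun g h => if h * g⁻¹ ∈ Y then 1 else 0
  let J : Matrix G G ℚ := Matrix.of fun _ _ => 1
  have hPQ' : ∀ g h, (P * Q) g h =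
      (((X ×ˢ Y).filter fun p => p.1 * p.2⁻¹ = g * h⁻¹).card : ℚ) := by
    intro g h
    have e1 : (P * Q) g h = ∑ k, if (g * k⁻¹ ∈ X ∧ h * k⁻¹ ∈ Y) then (1 : ℚ) else 0 := by
      rw [Matrix.mul_apply]
      refine Finset.sum_congr rfl fun k _ => ?_
      simp only [P, Q, Matrix.of_apply]
      split_ifs <;> simp_all
    rw [e1, Finset.sum_boole]
    congr 1
    refine Finset.card_bij (fun k _ => (g * k⁻¹, h * k⁻¹)) ?_ ?_ ?_
    · intro k hk
      rw [Finset.mem_filter] at hk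
      rw [Finset.mem_filter, Finset.mem_product]
      refine ⟨hk.2, ?_⟩
      simp only
      group
    · intro k _ k' _ h
      have := (Prod.mk.inj h).1
      simpa using this
    · rintro ⟨x, y⟩ hxy
      rw [Finset.mem_filter, Finset.mem_product] at hxy
      obtain ⟨⟨hx, hy⟩, hxy⟩ := hxy
      simp only at hx hy hxy
      have e2 : g * (x⁻¹ * g)⁻¹ = x := by group
      have e3 : h * (x⁻¹ * g)⁻¹ = y := by
        have : h = (g * h⁻¹)⁻¹ * g := by group
        rw [this, ← hxy]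
        group
      refine ⟨x⁻¹ * g, ?_, ?_⟩
      · rw [Finset.mem_filter, e2, e3]
        exact ⟨Finset.mem_univ _, hx, hy⟩
      · rw [e2, e3]
  have hQP' : ∀ g h, (Q * P) g h =
      (((X ×ˢ Y).filter fun p => p.2⁻¹ * p.1 = g * h⁻¹).card : ℚ) := by
    intro g h
    have e1 : (Q * P) g h = ∑ k, if (k * h⁻¹ ∈ X ∧ k * g⁻¹ ∈ Y) then (1 : ℚ) else 0 := by
      rw [Matrix.mul_apply]
      refine Finset.sum_congr rfl fun k _ => ?_
      simp only [P, Q, Matrix.of_apply]
      split_ifs <;> simp_all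
    rw [e1, Finset.sum_boole]
    congr 1
    refine Finset.card_bij (fun k _ => (k * h⁻¹, k * g⁻¹)) ?_ ?_ ?_
    · intro k hk
      rw [Finset.mem_filter] at hk
      rw [Finset.mem_filter, Finset.mem_product]
      refine ⟨hk.2, ?_⟩
      simp only
      group
    · intro k _ k' _ h
      have := (Prod.mk.inj h).1
      simpa using this
    · rintro ⟨x, y⟩ hxy
      rw [Finset.mem_filter, Finset.mem_product] at hxy
      obtain ⟨⟨hx, hy⟩, hxy⟩ := hxy
      simp only at hx hy hxy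
      have e2 : (x * h) * h⁻¹ = x := by group
      have e3 : (x * h) * g⁻¹ = y := by
        have : h * g⁻¹ = (g * h⁻¹)⁻¹ := by group
        rw [mul_assoc, this, ← hxy]
        group
      refine ⟨x * h, ?_, ?_⟩
      · rw [Finset.mem_filter, e2, e3]
        exact ⟨Finset.mem_univ _, hx, hy⟩
      · rw [e2, e3]
  have hPQ : P * Q = J - 1 := by
    ext g h
    rw [hPQ', h1, Matrix.sub_apply, Matrix.one_apply]
    simp only [J, Matrix.of_apply, mul_inv_eq_one]
    split_ifs <;> simp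
  have hJP : J * P = (X.card : ℚ) • J := by
    ext g h
    rw [Matrix.mul_apply, Matrix.smul_apply]
    simp only [J, P, Matrix.of_apply, one_mul, smul_eq_mul, mul_one]
    rw [Finset.sum_boole]
    congr 1
    exact Finset.card_bij (fun k _ => k * h⁻¹) (fun k hk => (Finset.mem_filter.1 hk).2)
      (fun k _ k' _ h => by simpa using h)
      (fun x hx => ⟨x * h, by simp [hx], by simp⟩)
  have hQJ : Q * J = (Y.card : ℚ) • J := by
    ext g h
    rw [Matrix.mul_apply, Matrix.smul_apply]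
    simp only [J, Q, Matrix.of_apply, smul_eq_mul, mul_one]
    rw [Finset.sum_boole]
    congr 1
    exact Finset.card_bij (fun k _ => k * g⁻¹) (fun k hk => (Finset.mem_filter.1 hk).2)
      (fun k _ k' _ h => by simpa using h)
      (fun x hx => ⟨x * g, by simp [hx], by simp⟩)
  have hJJ : J * J = (Fintype.card G : ℚ) • J := by
    ext g h
    rw [Matrix.mul_apply, Matrix.smul_apply]
    simp [J]
  have hcard : (X.card : ℚ) * Y.card = Fintype.card G - 1 := by
    have e1 : (X ×ˢ Y).card = ∑ g : G, ((X ×ˢ Y).filter fun p => p.1 * p.2⁻¹ = g).card :=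
      Finset.card_eq_sum_card_fiberwise (fun _ _ => Finset.mem_coe.2 (Finset.mem_univ _))
    simp only [h1] at e1
    have e2 : ∑ g : G, (if g = 1 then 0 else 1) = Fintype.card G - 1 := by
      have e3 : ∀ g : G, (if g = 1 then 0 else 1) = if g ≠ 1 then 1 else 0 := by
        intro g; split_ifs <;> simp_all
      simp only [e3]
      rw [← Finset.card_filter, Finset.filter_ne', Finset.card_erase_of_mem (Finset.mem_univ _),
        Finset.card_univ]
    rw [e2, Finset.card_product] at e1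
    have e4 : X.card * Y.card + 1 = Fintype.card G := by omega
    rw [← e4]
    push_cast
    ring
  have hn' : ((Fintype.card G : ℚ) - 1) ≠ 0 := by
    have : (1 : ℚ) < Fintype.card G := by exact_mod_cast hn
    linarith
  have hR : P * (Q * (((Fintype.card G : ℚ) - 1)⁻¹ • J - 1)) = 1 := by
    rw [← Matrix.mul_assoc, hPQ, Matrix.mul_sub, Matrix.mul_smul, Matrix.sub_mul, hJJ, Matrix.mul_one,
      Matrix.one_mul]
    ext g h
    simp only [Matrix.sub_apply, Matrix.smul_apply, smul_eq_mul, J, Matrix.of_apply, mul_one]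
    field_simp
    ring
  have hR' := mul_eq_one_comm.1 hR
  have hQP : Q * P = J - 1 := by
    rw [Matrix.mul_assoc, Matrix.sub_mul, Matrix.smul_mul, hJP, Matrix.one_mul, Matrix.mul_sub,
      Matrix.mul_smul, Matrix.mul_smul, hQJ] at hR'
    rw [← hR']
    ext g h
    simp only [Matrix.sub_apply, Matrix.smul_apply, smul_eq_mul, J, Matrix.of_apply, mul_one]
    rw [hcard]
    field_simp
    ring
  intro g
  have e := hQP' g 1
  rw [inv_one, mul_one, hQP, Matrix.sub_apply, Matrix.one_apply] at e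
  simp only [J, Matrix.of_apply] at e
  split_ifs with hg
  · rw [if_pos hg, sub_self] at e
    exact_mod_cast e.symm
  · rw [if_neg hg, sub_zero] at e
    exact_mod_cast e.symm

/-- the union of the other sets -/
def rest {m : ℕ} (A : Fin m → Finset G) (i : Fin m) : Finset G := (univ.erase i).biUnion A

omit [Fintype G] in
theorem mult_eq {m : ℕ} (A : Fin m → Finset G) (hd : ∀ i j, i ≠ j → Disjoint (A i) (A j))
    (i : Fin m) (g : G) :
    mult A i g = ((A i ×ˢ rest A i).filter fun p => p.1 * p.2⁻¹ = g).card := by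
  unfold mult
  rw [← Finset.card_biUnion]
  · congr 1
    ext ⟨x, y⟩
    simp only [Finset.mem_biUnion, Finset.mem_filter, Finset.mem_product, rest]
    constructor
    · rintro ⟨j, hj, ⟨hx, hy⟩, h⟩
      exact ⟨⟨hx, j, hj, hy⟩, h⟩
    · rintro ⟨⟨hx, j, hj, hy⟩, h⟩
      exact ⟨j, hj, ⟨hx, hy⟩, h⟩
  · intro j _ j' _ hjj'
    rw [Function.onFun, Finset.disjoint_left]
    rintro ⟨x, y⟩ h1 h2
    rw [Finset.mem_filter, Finset.mem_product] at h1 h2
    exact Finset.disjoint_left.1 (hd j j' hjj') h1.1.2 h2.1.2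

end

/-- **Answer to Q1 (no).** No finite group, abelian or not, contains an `(n,m,k,1)`-SEDF with
`m ≥ 3` and `k ≥ 2`. -/
theorem result (G : Type*) [Group G] [Fintype G] [DecidableEq G] (n m k : ℕ) (hm : 3 ≤ m)
    (hk : 2 ≤ k) (A : Fin m → Finset G) : ¬ IsSEDF n m k 1 A := by
  rintro ⟨-, hcard, hd, hA⟩
  have h1 : ∀ i, ∀ g : G, ((A i ×ˢ rest A i).filter fun p => p.1 * p.2⁻¹ = g).card =
      if g = 1 then 0 else 1 := by
    intro i g
    rw [← mult_eq A hd]
    split_ifs with hg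
    · rw [hg]; exact (hA i).2
    · exact (hA i).1 g hg
  let i0 : Fin m := ⟨0, by omega⟩
  let i1 : Fin m := ⟨1, by omega⟩
  let i2 : Fin m := ⟨2, by omega⟩
  have h01 : i0 ≠ i1 := by simp [i0, i1]
  have h02 : i0 ≠ i2 := by simp [i0, i2]
  have h12 : i1 ≠ i2 := by simp [i1, i2]
  obtain ⟨a, ha, a', ha', haa⟩ := Finset.one_lt_card.1 (by rw [hcard i0]; omega : 1 < (A i0).card)
  have hn : 1 < Fintype.card G := Fintype.one_lt_card_iff.2 ⟨a, a', haa⟩
  have h2 := flip (A i0) (rest A i0) hn (h1 i0)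
  have hg : a * a'⁻¹ ≠ 1 := by rwa [Ne, mul_inv_eq_one]
  have hrest : ∀ {i j : Fin m} {x : G}, x ∈ A j → j ≠ i → x ∈ rest A i := by
    intro i j x hx hij
    exact Finset.mem_biUnion.2 ⟨j, Finset.mem_erase.2 ⟨hij, Finset.mem_univ _⟩, hx⟩
  have key : ∀ i, i0 ≠ i → ∃ x ∈ A i, ∃ y ∈ A i0, x * y⁻¹ = a * a'⁻¹ := by
    intro i hi
    have h3 := h1 i (a * a'⁻¹)
    rw [if_neg hg] at h3
    obtain ⟨⟨x, y⟩, hxy⟩ := Finset.card_pos.1 (by rw [h3]; exact one_pos)
    rw [Finset.mem_filter, Finset.mem_product] at hxy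
    obtain ⟨⟨hx, hy⟩, hxy⟩ := hxy
    simp only at hx hy hxy
    obtain ⟨j, hj, hyj⟩ := Finset.mem_biUnion.1 hy
    by_cases hj0 : j = i0
    · subst hj0
      exact ⟨x, hx, y, hyj, hxy⟩
    · exfalso
      have e : y⁻¹ * a' = x⁻¹ * a := by
        have : x⁻¹ * (x * y⁻¹) * a' = x⁻¹ * (a * a'⁻¹) * a' := by rw [hxy]
        simpa [mul_assoc] using this
      have h4 : ((A i0 ×ˢ rest A i0).filter fun p => p.2⁻¹ * p.1 = x⁻¹ * a).card ≤ 1 := by
        rw [h2]; split_ifs <;> omega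
      have h5 : (a, x) = (a', y) := Finset.card_le_one.1 h4 _
        (Finset.mem_filter.2 ⟨Finset.mem_product.2 ⟨ha, hrest hx (Ne.symm hi)⟩, rfl⟩) _
        (Finset.mem_filter.2 ⟨Finset.mem_product.2 ⟨ha', hrest hyj hj0⟩, e⟩)
      exact haa (Prod.mk.inj h5).1
  obtain ⟨x1, hx1, y1, hy1, e1⟩ := key i1 h01
  obtain ⟨x2, hx2, y2, hy2, e2⟩ := key i2 h02
  have e1' : y1 * x1⁻¹ = (a * a'⁻¹)⁻¹ := by rw [← e1]; group
  have e2' : y2 * x2⁻¹ = (a * a'⁻¹)⁻¹ := by rw [← e2]; group
  have h6 : ((A i0 ×ˢ rest A i0).filter fun p => p.1 * p.2⁻¹ = (a * a'⁻¹)⁻¹).card ≤ 1 := by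
    rw [h1]; split_ifs <;> omega
  have h7 : (y1, x1) = (y2, x2) := Finset.card_le_one.1 h6 _
    (Finset.mem_filter.2 ⟨Finset.mem_product.2 ⟨hy1, hrest hx1 (Ne.symm h01)⟩, e1'⟩) _
    (Finset.mem_filter.2 ⟨Finset.mem_product.2 ⟨hy2, hrest hx2 (Ne.symm h02)⟩, e2'⟩)
  have h8 : x1 = x2 := (Prod.mk.inj h7).2
  rw [← h8] at hx2
  exact Finset.disjoint_left.1 (hd i1 i2 h12) hx1 hx2

end Pool.Agent.Results.MP_2fa8e1_co.NoneExists
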